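import Pool.Agent.Helper47.EP.Goals

/-!
# Project EP (MP_5b9a11_al), packet ODD: the representatives of the hyperplanes
-/

set_option autoImplicit false

namespace Pool.Agent.Helper44.EP.ODD

open Pool.Agent.Helper47.EP

variable {p : ℕ} [Fact p.Prime] {r : ℕ}

/-- The dot product. -/
def dp (h u : Fin r → ZMod p) : ZMod p := ∑ i, h i * u i

theorem dp_add (h u v : Fin r → ZMod p) : dp h (u + v) = dp h u + dp h v := by
  simp [dp, mul_add, Finset.sum_add_distrib]

theorem dp_smul (h u : Fin r → ZMod p) (c : ZMod p) : dp h (c • u) = c * dp h u := by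
  rw [dp, dp, Finset.mul_sum]
  refine Finset.sum_congr rfl fun i _ ↦ ?_
  rw [Pi.smul_apply, smul_eq_mul]
  ring

theorem smul_dp (h u : Fin r → ZMod p) (c : ZMod p) : dp (c • h) u = c * dp h u := by
  rw [dp, dp, Finset.mul_sum]
  refine Finset.sum_congr rfl fun i _ ↦ ?_
  rw [Pi.smul_apply, smul_eq_mul]
  ring

theorem add_dp (h h' u : Fin r → ZMod p) : dp (h + h') u = dp h u + dp h' u := by
  simp [dp, add_mul, Finset.sum_add_distrib]

theorem smul_mem (L : AddSubgroup (Fin r → ZMod p)) (c : ZMod p) {v : Fin r → ZMod p}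
    (hv : v ∈ L) : c • v ∈ L :=
  (AddSubgroup.toZModSubmodule p L).smul_mem c hv

/-- The elements of `L + ⟨u⟩`. -/
theorem mem_sup (L : AddSubgroup (Fin r → ZMod p)) (u w : Fin r → ZMod p) :
    w ∈ L ⊔ AddSubgroup.zmultiples u ↔ ∃ v ∈ L, ∃ c : ZMod p, v + c • u = w := by
  rw [AddSubgroup.mem_sup]
  constructor
  · rintro ⟨v, hv, z, hz, rfl⟩
    obtain ⟨n, rfl⟩ := AddSubgroup.mem_zmultiples_iff.mp hz
    exact ⟨v, hv, (n : ZMod p), by rw [Int.cast_smul_eq_zsmul]⟩
  · rintro ⟨v, hv, c, rfl⟩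
    refine ⟨v, hv, c • u, ?_, rfl⟩
    rw [AddSubgroup.mem_zmultiples_iff]
    refine ⟨(c.val : ℤ), ?_⟩
    rw [← Int.cast_smul_eq_zsmul (ZMod p)]
    simp

/-- The functionals which vanish on `L` and have the value `c` at `u`. -/
def Hc (L : AddSubgroup (Fin r → ZMod p)) (u : Fin r → ZMod p) (c : ZMod p) :
    Set (Fin r → ZMod p) :=
  {h | (∀ v ∈ L, dp h v = 0) ∧ dp h u = c}

/-- The functionals which vanish on `L` and at `u`. -/
def H0 (L : AddSubgroup (Fin r → ZMod p)) (u : Fin r → ZMod p) :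
    AddSubgroup (Fin r → ZMod p) where
  carrier := Hc L u 0
  zero_mem' := ⟨fun v _ ↦ by simp [dp], by simp [dp]⟩
  add_mem' := fun {a b} ha hb ↦ ⟨fun v hv ↦ by rw [add_dp, ha.1 v hv, hb.1 v hv, add_zero],
    by rw [add_dp, ha.2, hb.2, add_zero]⟩
  neg_mem' := fun {a} ha ↦ by
    have e : -a = (-1 : ZMod p) • a := by rw [neg_smul, one_smul]
    rw [e]
    exact ⟨fun v hv ↦ by rw [smul_dp, ha.1 v hv, mul_zero], by rw [smul_dp, ha.2, mul_zero]⟩

theorem exists_h (L : AddSubgroup (Fin r → ZMod p)) (u : Fin r → ZMod p) (hu : u ∉ L) :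
    ∃ h, h ∈ Hc L u 1 := by
  have hu' : u ∉ AddSubgroup.toZModSubmodule p L := hu
  obtain ⟨f, hfu, hf⟩ := Submodule.exists_le_ker_of_notMem hu'
  have hdp : ∀ v, dp (fun i ↦ f (Pi.single i 1)) v = f v := by
    intro v
    conv_rhs => rw [← Finset.univ_sum_single v]
    rw [map_sum, dp]
    refine Finset.sum_congr rfl fun i _ ↦ ?_
    have e : (Pi.single i (v i) : Fin r → ZMod p) = v i • Pi.single i 1 := by
      rw [← Pi.single_smul, smul_eq_mul, mul_one]
    rw [e, map_smul, smul_eq_mul, mul_comm]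
  refine ⟨(f u)⁻¹ • fun i ↦ f (Pi.single i 1), ?_, ?_⟩
  · intro v hv
    rw [smul_dp, hdp]
    have : f v = 0 := LinearMap.mem_ker.mp (hf hv)
    rw [this, mul_zero]
  · rw [smul_dp, hdp, inv_mul_cancel₀ hfu]

theorem card_odd (hp : p ≠ 2) (L : AddSubgroup (Fin r → ZMod p)) (u : Fin r → ZMod p)
    (hu : u ∉ L) : Odd (Nat.card (Hc L u 1)) := by
  obtain ⟨h, hh⟩ := exists_h L u hu
  have e : Nat.card (Hc L u 1) = Nat.card (H0 L u) := by
    refine Nat.card_congr ⟨fun x ↦ ⟨x.1 - h, ?_⟩, fun x ↦ ⟨x.1 + h, ?_⟩, ?_, ?_⟩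
    · have e : x.1 - h = x.1 + (-1 : ZMod p) • h := by rw [neg_smul, one_smul, sub_eq_add_neg]
      rw [e]
      exact ⟨fun v hv ↦ by rw [add_dp, smul_dp, x.2.1 v hv, hh.1 v hv, mul_zero, add_zero],
        by rw [add_dp, smul_dp, x.2.2, hh.2]; ring⟩
    · have hx : x.1 ∈ Hc L u 0 := x.2
      exact ⟨fun v hv ↦ by rw [add_dp, hx.1 v hv, hh.1 v hv, add_zero],
        by rw [add_dp, hx.2, hh.2, zero_add]⟩
    · intro x
      exact Subtype.ext (sub_add_cancel _ _)
    · intro x
      exact Subtype.ext (add_sub_cancel_right _ _)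
  rw [e]
  have hdvd := AddSubgroup.card_addSubgroup_dvd_card (H0 L u)
  have hcard : Nat.card (Fin r → ZMod p) = p ^ r := by
    rw [Nat.card_pi]
    simp
  rw [hcard] at hdvd
  have hodd : Odd (p ^ r) := ((Fact.out : p.Prime).odd_of_ne_two hp).pow
  exact Odd.of_dvd_nat hodd hdvd

theorem pr_eq (a : AA p r) (u : Fin r → ZMod p) : pr a u = dp a.1 u := rfl

theorem t : S_ODD := by
  intro p _ r hp
  refine ⟨?_, ?_, ?_, ?_⟩
  · intro L u hu
    have key : Nat.card {a : AA p r // a ∈ AL L ∧ pr a u ≠ 0} = Nat.card (Hc L u 1) := by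
      refine Nat.card_eq_of_bijective (fun a ↦ ⟨(pr a.1 u)⁻¹ • a.1.1, ?_, ?_⟩) ⟨?_, ?_⟩
      · intro v hv
        have h1 : pr a.1 v = 0 := a.2.1 v hv
        rw [smul_dp, ← pr_eq, h1, mul_zero]
      · rw [smul_dp, ← pr_eq, inv_mul_cancel₀ a.2.2]
      · rintro ⟨a, ha⟩ ⟨b, hb⟩ hab
        have h1 : (pr a u)⁻¹ • a.1 = (pr b u)⁻¹ • b.1 := congrArg Subtype.val hab
        have hc : ∀ i, (pr a u)⁻¹ * a.1 i = (pr b u)⁻¹ * b.1 i := fun i ↦ congrFun h1 i
        have hca : (pr a u)⁻¹ ≠ 0 := inv_ne_zero ha.2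
        have hcb : (pr b u)⁻¹ ≠ 0 := inv_ne_zero hb.2
        obtain ⟨i, hi1, hi2⟩ := a.2
        obtain ⟨j, hj1, hj2⟩ := b.2
        have hij : i = j := by
          rcases lt_trichotomy i j with h | h | h
          · have h2 := hc i
            rw [hi1, hj2 i h, mul_zero, mul_one] at h2
            exact absurd h2 hca
          · exact h
          · have h2 := hc j
            rw [hj1, hi2 j h, mul_zero, mul_one] at h2
            exact absurd h2.symm hcb
        subst hij
        have h3 := hc i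
        rw [hi1, hj1, mul_one, mul_one] at h3
        have h4 : a = b := by
          apply Subtype.ext
          funext k
          have h5 := hc k
          rw [h3] at h5
          exact mul_left_cancel₀ hcb h5
        exact Subtype.ext h4
      · rintro ⟨h, hh1, hh2⟩
        have hne : ∃ i, h i ≠ 0 := by
          by_contra hcon
          push Not at hcon
          rw [dp, Finset.sum_eq_zero fun i _ ↦ by rw [hcon i, zero_mul]] at hh2
          exact zero_ne_one hh2
        obtain ⟨i, hi, hmin⟩ : ∃ i, h i ≠ 0 ∧ ∀ j, j < i → h j = 0 := by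
          have hwf := (wellFounded_lt : WellFounded ((· < ·) : Fin r → Fin r → Prop))
          refine ⟨hwf.min {i | h i ≠ 0} hne, hwf.min_mem _ hne, fun j hj ↦ ?_⟩
          by_contra hcon
          exact hwf.not_lt_min {i | h i ≠ 0} hcon hj
        let a : AA p r := ⟨(h i)⁻¹ • h, i, by
          rw [Pi.smul_apply, smul_eq_mul, inv_mul_cancel₀ hi], fun j hj ↦ by
          rw [Pi.smul_apply, hmin j hj, smul_zero]⟩
        have hau : pr a u = (h i)⁻¹ := by
          rw [pr_eq]
          change dp ((h i)⁻¹ • h) u = _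
          rw [smul_dp, hh2, mul_one]
        refine ⟨⟨a, ?_, ?_⟩, ?_⟩
        · intro v hv
          rw [pr_eq]
          change dp ((h i)⁻¹ • h) v = _
          rw [smul_dp, hh1 v hv, mul_zero]
        · rw [hau]
          exact inv_ne_zero hi
        · apply Subtype.ext
          change (pr a u)⁻¹ • ((h i)⁻¹ • h) = h
          rw [hau, inv_inv, smul_smul, mul_inv_cancel₀ hi, one_smul]
    rw [key]
    exact card_odd hp L u hu
  · intro a
    obtain ⟨i, hi, _⟩ := a.2
    refine ⟨Pi.single i 1, ?_⟩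
    have : pr a (Pi.single i 1) = a.1 i := by
      simp [pr, Pi.single_apply]
    rw [this, hi]
    exact one_ne_zero
  · intro L u hu
    have hpos : p ≠ 0 := (Fact.out : p.Prime).ne_zero
    have e : Nat.card (L ⊔ AddSubgroup.zmultiples u : AddSubgroup (Fin r → ZMod p)) =
        Nat.card (ZMod p × L) := by
      symm
      refine Nat.card_eq_of_bijective (fun x ↦ ⟨(x.2 : Fin r → ZMod p) + x.1 • u,
        (mem_sup L u _).mpr ⟨x.2, x.2.2, x.1, rfl⟩⟩) ⟨?_, ?_⟩
      · rintro ⟨c, v⟩ ⟨c', v'⟩ h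
        have h1 : (v : Fin r → ZMod p) + c • u = v' + c' • u := congrArg Subtype.val h
        have h2 : (c - c') • u = (v' : Fin r → ZMod p) - v := by
          rw [sub_smul, sub_eq_sub_iff_add_eq_add, add_comm, h1, add_comm]
        have h3 : c = c' := by
          by_contra hne
          apply hu
          have h4 : u = (c - c')⁻¹ • ((v' : Fin r → ZMod p) - v) := by
            rw [← h2, smul_smul, inv_mul_cancel₀ (sub_ne_zero.mpr hne), one_smul]
          rw [h4]
          exact smul_mem L _ (L.sub_mem v'.2 v.2)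
        subst h3
        have h5 : v = v' := Subtype.ext (add_right_cancel h1)
        rw [h5]
      · rintro ⟨w, hw⟩
        obtain ⟨v, hv, c, rfl⟩ := (mem_sup L u w).mp hw
        exact ⟨(c, ⟨v, hv⟩), rfl⟩
    rw [e, Nat.card_prod, Nat.card_zmod]
  · intro L u a
    constructor
    · intro h
      refine ⟨fun v hv ↦ h v ((mem_sup L u v).mpr ⟨v, hv, 0, by simp⟩), ?_⟩
      exact h u ((mem_sup L u u).mpr ⟨0, L.zero_mem, 1, by simp⟩)
    · rintro ⟨h1, h2⟩ w hw
      obtain ⟨v, hv, c, rfl⟩ := (mem_sup L u w).mp hw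
      have h3 : pr a v = 0 := h1 v hv
      rw [pr_eq, dp_add, dp_smul, ← pr_eq, ← pr_eq, h3, h2, mul_zero, add_zero]

end Pool.Agent.Helper44.EP.ODD
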